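import Mathlib

set_option autoImplicit false

/-! Monadic transitive closure logic without parameters on graphs of large girth. -/

namespace Pool.Agent.H.MP_c527bb_lc

open FreeGroup Filter Relation

inductive Fm : ℕ → Type
  | eq {n : ℕ} (i j : Fin n) : Fm n
  | adj {n : ℕ} (i j : Fin n) : Fm n
  | not {n : ℕ} (φ : Fm n) : Fm n
  | and {n : ℕ} (φ ψ : Fm n) : Fm n
  | ex {n : ℕ} (φ : Fm (n + 1)) : Fm n
  | tc {n : ℕ} (φ : Fm 2) (s t : Fin n) : Fm n

def Sat {V : Type} (G : SimpleGraph V) : {n : ℕ} → Fm n → (Fin n → V) → Prop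
  | _, .eq i j, v => v i = v j
  | _, .adj i j, v => G.Adj (v i) (v j)
  | _, .not φ, v => ¬ Sat G φ v
  | _, .and φ ψ, v => Sat G φ v ∧ Sat G ψ v
  | _, .ex φ, v => ∃ x, Sat G φ (Fin.cons x v)
  | _, .tc φ s t, v => TransGen (fun x y => Sat G φ ![x, y]) (v s) (v t)

def TwoConn {V : Type} (G : SimpleGraph V) : Prop := ∀ z x y, x ≠ z → y ≠ z →
  ReflTransGen (fun u w => G.Adj u w ∧ u ≠ z ∧ w ≠ z) x y

abbrev F := FreeGroup Bool
abbrev L := Bool × Bool
def gen (l : L) : F := mk [l]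
def iv (l : L) : L := (l.1, !l.2)
def br (g : F) : L := (toWord g).getLastD (true, true)
def sg (l l' x : L) : L := (xor x.1 (xor l.1 l'.1), xor x.2 (xor l.2 l'.2))

theorem gen_iv (l : L) : gen (iv l) = (gen l)⁻¹ := rfl
theorem mk_cons (l : L) (w : List L) : mk (l :: w) = gen l * mk w := rfl
theorem br_gen (l : L) : br (gen l) = l := rfl
theorem gen_ne (l : L) : gen l ≠ 1 := fun h => by simpa [gen] using congrArg toWord h
theorem gen_inj {l l' : L} (h : gen l = gen l') : l = l' := congrArg br h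

theorem ind {P : F → Prop} (h1 : P 1) (h2 : ∀ l g, P g → P (gen l * g)) (g : F) : P g := by
  rw [← mk_toWord (x := g)]
  induction toWord g with
  | nil => exact h1
  | cons l w ih => exact h2 l _ ih

theorem br_mul {l : L} {g : F} (h : g ≠ 1) (h' : gen l * g ≠ 1) : br (gen l * g) = br g := by
  rw [Ne, ← toWord_eq_nil_iff] at h h'
  have e : toWord (gen l * g) = reduce (l :: toWord g) := by
    conv_lhs => rw [← mk_toWord (x := g)]
    rfl
  rw [br, br, e]
  rw [e] at h'
  rw [reduce.cons, reduce_toWord] at h' ⊢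
  cases k : toWord g with
  | nil => exact (h k).elim
  | cons a w =>
    simp only [k] at h' ⊢
    split_ifs at h' ⊢ with c
    · cases w with
      | nil => exact (h' rfl).elim
      | cons => simp
    · simp

theorem red_map (l l' : L) (w : List L) : reduce (w.map (sg l l')) = (reduce w).map (sg l l') := by
  induction w with
  | nil => rfl
  | cons a w ih =>
    rw [List.map_cons, reduce.cons, reduce.cons, ih]
    cases reduce w with
    | nil => rfl
    | cons b u =>
      have : ((sg l l' a).1 = (sg l l' b).1 ∧ (sg l l' a).2 = !(sg l l' b).2) ↔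
        (a.1 = b.1 ∧ a.2 = !b.2) := by clear ih; revert a b l l'; decide
      simp only [List.map_cons, this]
      split_ifs <;> rfl

def hat (l l' : L) (g : F) : F := mk ((toWord g).map (sg l l'))

theorem hat_word (l l' : L) (g : F) : toWord (hat l l' g) = (toWord g).map (sg l l') := by
  rw [hat, toWord_mk, red_map, reduce_toWord]

theorem hat_mul (l l' x : L) (g : F) : hat l l' (gen x * g) = gen (sg l l' x) * hat l l' g := by
  refine toWord_injective ?_
  rw [hat_word, hat, ← mk_cons, toWord_mk, ← List.map_cons, red_map]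
  conv_lhs => rw [← mk_toWord (x := g)]
  rfl

def tw (p : Equiv.Perm L) (g : F) : F := hat (br g) (p (br g)) g

theorem tw_adj (p : Equiv.Perm L) (l : L) (g : F) : ∃ l', tw p (gen l * g) = gen l' * tw p g := by
  by_cases c : g = 1
  · subst c; exact ⟨_, hat_mul ..⟩
  by_cases c' : gen l * g = 1
  · exact ⟨_, by rw [tw, tw, ← hat_mul, c']; rfl⟩
  · exact ⟨_, by rw [tw, tw, br_mul c c', hat_mul]⟩

theorem tw_tw (p : Equiv.Perm L) (g : F) : tw p⁻¹ (tw p g) = g := by
  by_cases c : g = 1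
  · subst c; rfl
  have s1 : ∀ l l' : L, sg l l' l = l' := by decide
  have s2 : ∀ l l' x : L, sg l' l (sg l l' x) = x := by decide
  have e : br (tw p g) = p (br g) := by
    rw [← s1 (br g) (p (br g)), br, tw, hat_word]
    rw [← toWord_eq_nil_iff] at c
    rw [List.getLastD_eq_getLast?, List.getLast?_map, List.getLast?_eq_some_getLast c]
    simp [br, List.getLast?_eq_some_getLast c]
  refine toWord_injective ?_
  rw [tw, e, hat_word, tw, hat_word, List.map_map]
  simp [Function.comp_def, s2]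

theorem back {u : F} (h : u ≠ 1) :
    u * gen (iv (br u)) = 1 ∨ br (u * gen (iv (br u))) ≠ iv (br u) := by
  induction u using ind with
  | h1 => exact (h rfl).elim
  | h2 l v ih =>
    by_cases c : v = 1
    · exact .inl (by rw [c, mul_one, br_gen, gen_iv, mul_inv_cancel])
    rw [br_mul c h, mul_assoc, or_iff_not_imp_left]
    intro c'
    by_cases e : v * gen (iv (br v)) = 1
    · rw [e, mul_one, br_gen]
      rintro rfl
      exact h (mul_eq_one_comm.1 e)
    · rw [br_mul e c']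
      exact (ih c).resolve_left e

section
variable {P Q : Type} [MulAction F P] [MulAction F Q]

def Ad (a b : P) : Prop := ∃ l, b = gen l • a

structure Iso (f : P → Q → Prop) : Prop where
  eq : ∀ {a a' b b'}, f a a' → f b b' → (a = b ↔ a' = b')
  ad : ∀ {a a' b b'}, f a a' → f b b' → (Ad a b ↔ Ad a' b')
  l : ∀ {a a'} (g : F), f a a' → ∃ b', f (g • a) b'
  r : ∀ {a a'} (g : F), f a a' → ∃ b, f b (g • a')
  fl : ∃ D : Set P, D.Finite ∧ ∀ a a', f a a' → ∃ d ∈ D, ∃ g : F, a = g • d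
  fr : ∃ D : Set Q, D.Finite ∧ ∀ a a', f a a' → ∃ d ∈ D, ∃ g : F, a' = g • d

theorem Iso.symm {f : P → Q → Prop} (h : Iso f) : Iso fun a b => f b a :=
  ⟨fun a b => (h.eq a b).symm, fun a b => (h.ad a b).symm, h.r, h.l,
    h.fr.imp fun _ k => ⟨k.1, fun _ _ => k.2 _ _⟩, h.fl.imp fun _ k => ⟨k.1, fun _ _ => k.2 _ _⟩⟩

def Fr (P : Type) [MulAction F P] : Prop := ∀ (g h : F) (a : P), g • a = h • a → g = h

theorem piece (hP : Fr P) (hQ : Fr Q) (p : Equiv.Perm L) (a : P) (a' : Q) :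
    Iso fun b b' => ∃ g : F, b = g • a ∧ b' = tw p g • a' := by
  have i : ∀ g, tw p (tw p⁻¹ g) = g := tw_tw p⁻¹
  refine ⟨?_, ?_, ?_, ?_, ⟨{a}, by simp, fun _ _ ⟨g, e, _⟩ => ⟨a, rfl, g, e⟩⟩,
    ⟨{a'}, by simp, fun _ _ ⟨g, _, e⟩ => ⟨a', rfl, _, e⟩⟩⟩
  · rintro _ _ _ _ ⟨g, rfl, rfl⟩ ⟨h, rfl, rfl⟩
    exact ⟨fun e => by rw [hP _ _ _ e], fun e => by rw [← tw_tw p g, hQ _ _ _ e, tw_tw]⟩
  · rintro _ _ _ _ ⟨g, rfl, rfl⟩ ⟨h, rfl, rfl⟩
    refine ⟨fun ⟨l, e⟩ => ?_, fun ⟨l, e⟩ => ?_⟩ <;> rw [← mul_smul] at e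
    · obtain ⟨l', k⟩ := tw_adj p l g
      exact ⟨l', by rw [hP _ _ _ e, k, mul_smul]⟩
    · obtain ⟨l', k⟩ := tw_adj p⁻¹ l (tw p g)
      exact ⟨l', by rw [← tw_tw p h, hQ _ _ _ e, k, tw_tw, mul_smul]⟩
  · rintro _ _ g ⟨h, rfl, rfl⟩
    exact ⟨_, g * h, (mul_smul ..).symm, rfl⟩
  · rintro _ _ g ⟨h, rfl, rfl⟩
    exact ⟨_, tw p⁻¹ (g * tw p h), rfl, by rw [i, mul_smul]⟩

theorem Iso.union {f f' : P → Q → Prop} (h : Iso f) (h' : Iso f')
    (d : ∀ a a' b', f a a' → ¬ f' a b') (d' : ∀ a a' b, f a a' → ¬ f' b a') :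
    Iso fun a b => f a b ∨ f' a b := by
  have k : ∀ {a a' b b'} (g : F), f a a' → f' b b' → b ≠ g • a ∧ b' ≠ g • a' ∧ a ≠ g • b ∧
      a' ≠ g • b' := fun g x y =>
    ⟨fun e => let ⟨_, z⟩ := h.l g x; d _ _ _ z (e ▸ y),
      fun e => let ⟨_, z⟩ := h.r g x; d' _ _ _ z (e ▸ y),
      fun e => let ⟨_, z⟩ := h'.l g y; d _ _ _ x (e ▸ z),
      fun e => let ⟨_, z⟩ := h'.r g y; d' _ _ _ x (e ▸ z)⟩
  refine ⟨?_, ?_, fun g x => x.elim (fun x => (h.l g x).imp fun _ => .inl)
    fun x => (h'.l g x).imp fun _ => .inr, fun g x => x.elim (fun x => (h.r g x).imp fun _ => .inl)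
    fun x => (h'.r g x).imp fun _ => .inr, ?_, ?_⟩
  · rintro a a' b b' (x | x) (y | y)
    exacts [h.eq x y, iff_of_false (by simpa using (k 1 x y).2.2.1) (by simpa using (k 1 x y).2.2.2),
      iff_of_false (by simpa using (k 1 y x).1) (by simpa using (k 1 y x).2.1), h'.eq x y]
  · rintro a a' b b' (x | x) (y | y)
    exacts [h.ad x y, iff_of_false (fun ⟨_, e⟩ => (k _ x y).1 e) fun ⟨_, e⟩ => (k _ x y).2.1 e,
      iff_of_false (fun ⟨_, e⟩ => (k _ y x).2.2.1 e) fun ⟨_, e⟩ => (k _ y x).2.2.2 e, h'.ad x y]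
  · obtain ⟨D, h1, h2⟩ := h.fl
    obtain ⟨D', h3, h4⟩ := h'.fl
    exact ⟨_, h1.union h3, fun a a' x => x.elim (fun x => (h2 a a' x).imp fun _ k => ⟨.inl k.1, k.2⟩)
      fun x => (h4 a a' x).imp fun _ k => ⟨.inr k.1, k.2⟩⟩
  · obtain ⟨D, h1, h2⟩ := h.fr
    obtain ⟨D', h3, h4⟩ := h'.fr
    exact ⟨_, h1.union h3, fun a a' x => x.elim (fun x => (h2 a a' x).imp fun _ k => ⟨.inl k.1, k.2⟩)
      fun x => (h4 a a' x).imp fun _ k => ⟨.inr k.1, k.2⟩⟩

theorem Iso.add (hP : Fr P) (hQ : Fr Q) {f : P → Q → Prop} (h : Iso f) {a : P} {a' : Q}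
    (ha : ∀ b', ¬ f a b') (ha' : ∀ b, ¬ f b a') :
    ∃ f', Iso f' ∧ f' a a' ∧ ∀ x y, f x y → f' x y := by
  refine ⟨_, h.union (piece hP hQ 1 a a') ?_ ?_, .inr ⟨1, by simp, (one_smul _ _).symm⟩,
    fun _ _ => .inl⟩
  · rintro _ _ _ x ⟨g, rfl, -⟩
    obtain ⟨b, y⟩ := h.l g⁻¹ x
    exact ha b (by simpa using y)
  · rintro _ _ _ x ⟨g, -, rfl⟩
    obtain ⟨b, y⟩ := h.r (tw 1 g)⁻¹ x
    exact ha' b (by simpa using y)

def gr (P : Type) [MulAction F P] : SimpleGraph P where
  Adj x y := x ≠ y ∧ Ad x y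
  symm := ⟨fun _ _ ⟨h, l, e⟩ => ⟨h.symm, iv l, by rw [e, gen_iv, inv_smul_smul]⟩⟩
  loopless := ⟨fun _ h => h.1 rfl⟩

theorem total {R : P → P → Prop} (h : ∀ s t x, TransGen R x ((gen s * gen t) • x)) (o : P)
    (h1 : ∀ x, ∃ g : F, x = g • o) (h2 : ∃ m, gen (false, true) ^ (2 * m + 1) • o = o) (x y : P) :
    TransGen R x y := by
  let a := gen (false, true)
  have k0 : ∀ n (w : List L), w.length = 2 * n → ∀ x, TransGen R x (mk w • x) := fun n => by
    induction n with
    | zero =>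
      intro w e x
      obtain rfl := List.length_eq_zero_iff.1 e
      simpa [gen_iv, ← one_eq_mk] using h (false, true) (iv (false, true)) x
    | succ n ih =>
      rintro (_ | ⟨s, _ | ⟨t, w⟩⟩) e x <;> simp only [List.length_cons, List.length_nil] at e
      · omega
      · omega
      · simpa [mk_cons, mul_smul] using (ih w (by omega) x).trans (h s t _)
  have k : ∀ g : F, (∀ x, TransGen R x (g • x)) ∨
      (∀ x, TransGen R x ((a * g) • x)) ∧ ∀ x, TransGen R x ((g * a) • x) := fun g => by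
    rw [← mk_toWord (x := g)]
    obtain ⟨n, e | e⟩ := Nat.even_or_odd' (toWord g).length
    · exact .inl (k0 n _ e)
    · exact .inr ⟨k0 (n + 1) (_ :: _) (by simp; omega), k0 (n + 1) (_ ++ [_]) (by simp; omega)⟩
  obtain ⟨m, h2⟩ := h2
  have k' : ∀ x, TransGen R x ((a ^ (2 * m)) • x) := fun x => by
    have := k0 m (List.replicate (2 * m) (false, true)) (by simp) x
    rwa [← toWord_of_pow, mk_toWord] at this
  have e : ∀ x, TransGen R x o ∧ TransGen R o x := fun x => by
    obtain ⟨g, rfl⟩ := h1 x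
    constructor
    · refine (k g⁻¹).elim (fun k => by simpa using k (g • o)) fun k => ?_
      have := (k.1 (g • o)).trans (k' _)
      rwa [mul_smul, inv_smul_smul, ← mul_smul, ← pow_succ, h2] at this
    · refine (k g).elim (fun k => k o) fun k => ?_
      have := (k' o).trans (k.2 _)
      rwa [mul_smul, ← mul_smul a, ← pow_succ', h2] at this
  exact (e x).1.trans (e y).2

theorem rev [Finite P] {R : P → P → Prop} {u : F} (h : ∀ x, R x (u • x)) (x : P) :
    TransGen R (u • x) x := by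
  have k : ∀ n y, TransGen R y (u ^ (n + 1) • y) := fun n => by
    induction n with
    | zero => exact fun y => .single (by simpa using h y)
    | succ n ih => exact fun y => by rw [pow_succ', mul_smul]; exact (ih y).tail (h _)
  obtain ⟨n, n1, n2⟩ := (isOfFinOrder_of_finite (MulAction.toPermHom F P u)).exists_pow_eq_one
  have e : ∀ y : P, u ^ n • y = y := fun y => by
    rw [← map_pow] at n2
    exact congrArg (fun s : Equiv.Perm P => s y) n2
  have := k (2 * n - 2) (u • x)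
  rwa [← mul_smul, ← pow_succ, show 2 * n - 2 + 1 + 1 = n + n by omega, pow_add, mul_smul, e, e]
    at this
end

structure Fam where
  X : ℕ → Type
  [act : ∀ n, MulAction F (X n)]
  [fin : ∀ n, Finite (X n)]
  o : ∀ n, X n
  free : ∀ g : F, g ≠ 1 → ∀ a : ∀ n, X n, ∀ᶠ n in hyperfilter ℕ, g • a n ≠ a n
  tr : ∀ n x, ∃ g : F, x = g • o n
  odd : ∀ n, ∃ m, gen (false, true) ^ (2 * m + 1) • o n = o n

attribute [instance] Fam.act Fam.fin

namespace Fam
variable (A : Fam)

def P : Type := Quotient (productSetoid (hyperfilter ℕ) A.X)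
noncomputable def mk' (a : ∀ n, A.X n) : A.P := Quotient.mk _ a

variable {A}

theorem mk_eq {a b : ∀ n, A.X n} : A.mk' a = A.mk' b ↔ ∀ᶠ n in hyperfilter ℕ, a n = b n :=
  Quotient.eq

noncomputable instance : MulAction F A.P where
  smul g := Quotient.map (g • ·) fun _ _ h => Eventually.mono h fun _ e => congrArg (g • ·) e
  one_smul := by rintro ⟨a⟩; exact congrArg A.mk' (one_smul _ a)
  mul_smul := by rintro g h ⟨a⟩; exact congrArg A.mk' (mul_smul g h a)

theorem smul_mk (g : F) (a : ∀ n, A.X n) : g • A.mk' a = A.mk' (g • a) := rfl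

theorem fr : Fr A.P := by
  rintro g h ⟨a⟩ e
  by_contra c
  obtain ⟨n, h1, h2⟩ := ((A.free (h⁻¹ * g) (fun k => c (inv_mul_eq_one.1 k).symm) a).and
    (mk_eq.1 e)).exists
  exact h1 (by rw [mul_smul, show g • a n = h • a n from h2, inv_smul_smul])

theorem far {D : Set A.P} (hD : D.Finite) : ∃ a, ∀ d ∈ D, ∀ g : F, a ≠ g • d := by
  classical
  obtain ⟨e, he⟩ := exists_surjective_nat F
  obtain ⟨i, hi⟩ : ∃ i : ℕ → F, Function.Injective i :=
    ⟨fun n => of true ^ n, fun m n h => by simpa [norm_of_pow] using congrArg FreeGroup.norm h⟩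
  let p : ∀ n, ℕ → Prop := fun n N => ∃ x : A.X n, ∀ d ∈ D, ∀ j < N, x ≠ e j • d.out n
  have h1 : ∀ N, ∀ᶠ n in hyperfilter ℕ, p n N := fun N => by
    let T := hD.toFinset ×ˢ Finset.range N
    refine ((eventually_all_finset (Finset.range (T.card + 1))).2 fun j _ =>
      (eventually_all_finset (Finset.range (T.card + 1))).2 fun k _ =>
        show ∀ᶠ n in hyperfilter ℕ, i j • A.o n = i k • A.o n → j = k from by
          by_cases c : j = k
          · simp [c]
          · exact (A.free ((i k)⁻¹ * i j) (fun q => c (hi (inv_mul_eq_one.1 q)).symm) A.o).mono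
              fun n h q => (h (by rw [mul_smul, q, inv_smul_smul])).elim).mono fun n h => ?_
    by_contra! c
    simp only [p, not_exists, not_forall, not_not] at c
    choose d d1 j j1 c using c
    obtain ⟨x, x1, y, y1, ne, q⟩ := Finset.exists_ne_map_eq_of_card_lt_of_maps_to
      (s := Finset.range (T.card + 1)) (t := T) (f := fun k => (d (i k • A.o n), j (i k • A.o n)))
      (by simp) fun k _ => by simp [T, d1, j1]
    exact ne (h x x1 y y1 (by
      rw [c (i x • _), c (i y • _), show d (i x • A.o n) = d (i y • A.o n) from (Prod.ext_iff.1 q).1,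
        show j (i x • A.o n) = j (i y • A.o n) from (Prod.ext_iff.1 q).2]))
  choose a ha using fun n => Nat.findGreatest_spec (P := p n) n.zero_le ⟨A.o n, by simp⟩
  refine ⟨A.mk' a, fun d hd g q => ?_⟩
  obtain ⟨j, rfl⟩ := he g
  rw [← d.out_eq] at q
  obtain ⟨n, ⟨k1, k2⟩, k3⟩ := (((h1 (j + 1)).and (hyperfilter_le_cofinite
    (Nat.cofinite_eq_atTop ▸ eventually_ge_atTop (j + 1)))).and (mk_eq.1 q)).exists
  exact ha n d hd j (Nat.le_findGreatest k2 k1) k3

def T (A : Fam) {k : ℕ} (φ : Fm k) (v : Fin k → A.P) : Prop :=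
  ∀ᶠ n in hyperfilter ℕ, Sat (gr (A.X n)) φ fun i => (v i).out n

theorem T_mk {k : ℕ} {φ : Fm k} (v : Fin k → ∀ n, A.X n) : A.T φ (fun i => A.mk' (v i)) ↔
    ∀ᶠ n in hyperfilter ℕ, Sat (gr (A.X n)) φ fun i => v i n :=
  eventually_congr ((eventually_all.2 fun i => mk_eq.1 (A.mk' (v i)).out_eq).mono fun n h => by
    rw [funext h])

theorem T2 {φ : Fm 2} (a b : ∀ n, A.X n) : A.T φ ![A.mk' a, A.mk' b] ↔
    ∀ᶠ n in hyperfilter ℕ, Sat (gr (A.X n)) φ ![a n, b n] := by
  have := T_mk (φ := φ) ![a, b]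
  rw [show (fun i => A.mk' (![a, b] i)) = ![A.mk' a, A.mk' b] by ext i; fin_cases i <;> rfl] at this
  refine this.trans (eventually_congr (.of_forall fun n => ?_))
  rw [show (fun i => ![a, b] i n) = ![a n, b n] by ext i; fin_cases i <;> rfl]

theorem los {p : ∀ n, A.X n → Prop} (h : ∀ a : ∀ n, A.X n, ∀ᶠ n in hyperfilter ℕ, p n (a n)) :
    ∀ᶠ n in hyperfilter ℕ, ∀ x, p n x := by
  classical
  choose a ha using fun n => show ∃ x, p n x → ∀ y, p n y from by
    by_cases c : ∀ y, p n y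
    exacts [⟨A.o n, fun _ => c⟩, let ⟨x, k⟩ := not_forall.1 c; ⟨x, fun e => (k e).elim⟩]
  exact (h a).mono ha

theorem T_ex {k : ℕ} {φ : Fm (k + 1)} {v : Fin k → A.P} :
    A.T (.ex φ) v ↔ ∃ a, A.T φ (Fin.cons a v) := by
  classical
  refine ⟨fun h => ?_, fun ⟨a, h⟩ => h.mono fun n h => ⟨a.out n, ?_⟩⟩
  · choose a ha using fun n => show ∃ x, Sat (gr (A.X n)) (.ex φ) (fun i => (v i).out n) →
      Sat (gr (A.X n)) φ (Fin.cons x fun i => (v i).out n) from by
        by_cases c : Sat (gr (A.X n)) (.ex φ) fun i => (v i).out n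
        exacts [let ⟨x, k⟩ := c; ⟨x, fun _ => k⟩, ⟨A.o n, fun e => (c e).elim⟩]
    refine ⟨A.mk' a, ((h.mono ha).and (mk_eq.1 (A.mk' a).out_eq)).mono fun n ⟨h1, h2⟩ => ?_⟩
    rwa [show (fun i => (Fin.cons (α := fun _ => A.P) (A.mk' a) v i).out n) =
      Fin.cons (a n) fun i => (v i).out n from funext fun i => Fin.cases h2 (fun _ => rfl) i]
  · rwa [show (fun i => (Fin.cons (α := fun _ => A.P) a v i).out n) =
      Fin.cons (a.out n) fun i => (v i).out n from funext fun i => Fin.cases rfl (fun _ => rfl) i]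
      at h

theorem T_eq {k : ℕ} {i j : Fin k} {v : Fin k → A.P} : A.T (.eq i j) v ↔ v i = v j :=
  mk_eq.symm.trans (by rw [mk', mk', (v i).out_eq, (v j).out_eq])

theorem T_adj {k : ℕ} {i j : Fin k} {v : Fin k → A.P} : A.T (.adj i j) v ↔ Ad (v i) (v j) := by
  have e : ∀ l, v j = gen l • v i ↔ ∀ᶠ n in hyperfilter ℕ, (v j).out n = gen l • (v i).out n :=
    fun l => by
      conv_lhs => rw [← (v i).out_eq, ← (v j).out_eq]
      exact mk_eq
  refine ⟨fun h => ?_, fun ⟨l, h⟩ => (((e l).1 h).and (A.free _ (gen_ne l) (v i).out)).mono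
    fun n k => ⟨fun q => k.2 (k.1.symm.trans q.symm), l, k.1⟩⟩
  obtain ⟨l, h⟩ := Ultrafilter.eventually_exists_iff.1 (h.mono fun n k => k.2)
  exact ⟨l, (e l).2 h⟩

theorem inv {k : ℕ} (φ : Fm k) : ∀ (A B : Fam) (f : A.P → B.P → Prop), Iso f →
    ∀ v v', (∀ i, f (v i) (v' i)) → A.T φ v → B.T φ v' := by
  induction φ with
  | eq i j => exact fun A B f h v v' e k => T_eq.2 ((h.eq (e i) (e j)).1 (T_eq.1 k))
  | adj i j => exact fun A B f h v v' e k => T_adj.2 ((h.ad (e i) (e j)).1 (T_adj.1 k))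
  | not φ ih =>
    exact fun A B f h v v' e k => Ultrafilter.eventually_not.2 fun c =>
      Ultrafilter.eventually_not.1 k (ih B A _ h.symm v' v e c)
  | and φ ψ ih ih' =>
    exact fun A B f h v v' e k => (ih A B f h v v' e (k.mono fun _ => And.left)).and
      (ih' A B f h v v' e (k.mono fun _ => And.right))
  | ex φ ih =>
    intro A B f h v v' e k
    obtain ⟨a, k⟩ := T_ex.1 k
    by_cases c : ∃ b, f a b
    · obtain ⟨b, c⟩ := c
      exact T_ex.2 ⟨b, ih A B f h _ _ (Fin.cases c e) k⟩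
    · obtain ⟨D, d1, d2⟩ := h.fr
      obtain ⟨b, hb⟩ := far d1
      obtain ⟨f', f1, f2, f3⟩ := h.add fr fr (not_exists.1 c)
        fun x q => let ⟨d, k1, g, k2⟩ := d2 x b q; hb d k1 g k2
      exact T_ex.2 ⟨b, ih A B f' f1 _ _ (Fin.cases f2 fun i => f3 _ _ (e i)) k⟩
  | tc φ s t ih =>
    intro A B f h v v' e k
    have i2 : ∀ (f : A.P → B.P → Prop), Iso f → ∀ {a b a' b'}, f a a' → f b b' →
        A.T φ ![a, b] → B.T φ ![a', b'] := fun f h _ _ _ _ x y =>
      ih A B f h _ _ fun i => by fin_cases i; exacts [x, y]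
    by_cases c : ∃ a b, a ≠ b ∧ A.T φ ![a, b]
    swap
    · have c1 : ∀ᶠ n in hyperfilter ℕ, ∀ x y, Sat (gr (A.X n)) φ ![x, y] → x = y :=
        los fun a => (los fun b => by_contra fun q => by
          have := Ultrafilter.eventually_not.2 q
          exact c ⟨A.mk' a, A.mk' b, fun r => (this.and (mk_eq.1 r)).exists.elim
            fun n r => r.1 fun _ => r.2, (T2 a b).2 (this.mono fun n r => by tauto)⟩)
      have c2 := (T2 (φ := φ) (v s).out (v t).out).2 ((c1.and k).mono fun n ⟨k1, k2⟩ => by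
        change TransGen _ ((v s).out n) ((v t).out n) at k2
        generalize (v t).out n = y at k2
        induction k2 with
        | single q => exact q
        | tail _ q ih => exact k1 _ _ q ▸ ih)
      have c3 := i2 f h (a' := B.mk' (v' s).out) (b' := B.mk' (v' t).out)
        (by simpa [mk'] using e s) (by simpa [mk'] using e t) c2
      exact ((T2 _ _).1 c3).mono fun n q => .single q
    obtain ⟨a, b, ne, c⟩ := c
    suffices q : ∀ p q, ∀ᶠ n in hyperfilter ℕ, ∀ x, TransGen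
        (fun x y => Sat (gr (B.X n)) φ ![x, y]) x ((gen p * gen q) • x) from
      (eventually_all.2 fun p => eventually_all.2 (q p)).mono fun n q =>
        total q (B.o n) (B.tr n) (B.odd n) _ _
    by_cases o : ∃ u : F, b = u • a
    · obtain ⟨u, rfl⟩ := o
      have u1 : u ≠ 1 := fun q => ne (by simp [q])
      obtain ⟨r, r1, r2⟩ : ∃ r, r ≠ iv (br u) ∧ (u * gen (iv (br u)) = 1 ∨
          br (u * gen (iv (br u))) = r) := (back u1).elim
        (fun q => ⟨br u, (by decide : ∀ l : L, l ≠ iv l) _, .inl q⟩)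
        fun q => ⟨_, q, .inr rfl⟩
      have key : ∀ p r', p ≠ r' → ∀ᶠ n in hyperfilter ℕ, ∀ x, Sat (gr (B.X n)) φ
          ![x, (hat r r' (u * gen (iv (br u))) * (gen p)⁻¹) • x] := fun p r' ne => los fun x => by
        let z := Equiv.swap (Equiv.swap (iv (br u)) p r) r' * Equiv.swap (iv (br u)) p
        have z1 : z (iv (br u)) = p := by
          simp only [z, Equiv.Perm.mul_apply, Equiv.swap_apply_left]
          exact Equiv.swap_apply_of_ne_of_ne (fun q => r1 (by
            rw [← Equiv.swap_apply_eq_iff.1 q.symm |>.symm] ; simp) |> False.elim) ne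
        have z2 : z r = r' := by simp [z]
        refine (T2 x ((hat r r' (u * gen (iv (br u))) * (gen p)⁻¹) • x)).1
          (i2 _ (piece fr fr z ((gen (iv (br u)))⁻¹ • a) ((gen p)⁻¹ • B.mk' x))
            ⟨gen (iv (br u)), by simp, ?_⟩ ⟨u * gen (iv (br u)), by simp [mul_smul], ?_⟩ c)
        · have s1 : ∀ l l' : L, hat l l' (gen l) = gen l' := fun l l' => by
            simpa [show hat l l' 1 = 1 from rfl, show ∀ l l' : L, sg l l' l = l' by decide]
              using hat_mul l l' l 1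
          rw [tw, br_gen, z1, s1, smul_inv_smul]
        · rw [← smul_mk, mul_smul, tw]
          rcases r2 with q | q
          · rw [q]; rfl
          · rw [q, z2]
      intro p q
      obtain ⟨r', q1, q2⟩ : ∃ r', p ≠ r' ∧ iv q ≠ r' := by revert p q; decide
      refine ((key p r' q1).and (key _ r' q2)).mono fun n ⟨k1, k2⟩ x => ?_
      refine (TransGen.single (k2 x)).trans ?_
      have := rev (R := fun x y => Sat (gr (B.X n)) φ ![x, y]) k1 ((gen p * gen q) • x)
      rw [← mul_smul, mul_assoc, inv_mul_cancel_left] at this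
      rwa [gen_iv q, inv_inv]
    · refine fun p q => los fun x => ?_
      obtain ⟨w, hw⟩ := far (Set.finite_singleton (B.mk' x))
      have q1 : ∀ a' b' : B.P, (∀ g : F, b' ≠ g • a') → B.T φ ![a', b'] := fun a' b' q => by
        obtain ⟨f', f1, f2, f3⟩ := (piece fr fr 1 a a').add fr fr (a := b) (a' := b')
          (fun _ ⟨g, k, _⟩ => o ⟨g, k⟩) fun _ ⟨_, _, k⟩ => q _ k
        exact i2 f' f1 (f3 _ _ ⟨1, by simp, (one_smul _ _).symm⟩) f2 c
      rw [← w.out_eq] at hw
      exact (((T2 _ _).1 (q1 _ _ (hw _ rfl))).and ((T2 w.out ((gen p * gen q) • x)).1 (q1 _ _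
        fun g k => hw _ rfl (g⁻¹ * (gen p * gen q)) (by
          rw [mul_smul, smul_mk, k, inv_smul_smul]; rfl)))).mono
        fun n k => (TransGen.single k.1).tail k.2

end Fam

end Pool.Agent.H.MP_c527bb_lc
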